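import Pool.Agent.Helper55.RL.Spec
import Pool.Agent.Helper55.RG.Spec4
import Pool.Agent.Helper55.TT.FinC

/-! RL, part K1P. -/

set_option autoImplicit false
set_option linter.all false

open Polynomial IsDedekindDomain NumberField
open scoped Classical

namespace Pool.Agent.Helper79.RL.K1P

open Pool.Agent.TH115.GD Pool.Agent.R939.EI Pool.Agent.Helper55.TT Pool.Agent.Helper55.UV
open Pool.Agent.R939.HI Pool.Agent.W275.UB Pool.Agent.H927R2.RD Pool.Agent.R939.PP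
open Pool.Agent.Helper55.RG Pool.Agent.Helper55.RL

theorem main (hB : P_KBP) (hC : P_KCP) : P_K1P := by
  intro p hpf k k₁ _ _ _ _ _ J _ ω u n l0 hn s hs
  obtain ⟨t, ht⟩ := fin_div (pow_ne_zero (p - 1) hs)
  have h1 : D0 (⋃ S ∈ (t.filter fun S => S.Monic ∧ (∀ q : k₁[X], Irreducible q → ¬ q ^ p ∣ S) ∧
      S ≠ 1),
      {x : (Σ l : Fin u, Fin (n l + 1)) × J → ℤ |
        Irreducible ((Dp ω x l0).map (algebraMap k k₁)) ∧
        ¬ (Dp ω x l0).map (algebraMap k k₁) ∣ S ∧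
        ∃ c : k₁, c ≠ 0 ∧ PwMod p ((Dp ω x l0).map (algebraMap k k₁)) (C c * S)}) := by
    refine D0.biUnion _ _ fun S hS => ?_
    obtain ⟨-, q1, q2, q3⟩ := Finset.mem_filter.1 hS
    exact hB p k k₁ J ω u n l0 (by omega) S q1 q2 q3
  have h2 := hC p k k₁ J ω u n l0 hn
  intro ε hε
  refine ((h1.union h2) ε hε).mono ?_
  rintro x ⟨hirr, hx⟩
  unfold IndepP at hx
  push Not at hx
  obtain ⟨c, S, hc, hSm, hSs, hSd, hDS, hsq, hne⟩ := hx
  by_cases h1S : S = 1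
  · right
    refine ⟨hirr, c, ?_, ?_⟩
    · rintro ⟨v, hv⟩
      exact hne h1S v hv
    · rw [h1S, mul_one] at hsq
      exact hsq
  · left
    simp only [Set.mem_iUnion, exists_prop]
    exact ⟨S, Finset.mem_filter.2 ⟨ht S hSm hSd, hSm, hSs, h1S⟩, hirr, hDS, c, hc, hsq⟩

end Pool.Agent.Helper79.RL.K1P
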