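import Pool.Agent.Helper79.RL.SysP

/-! RL, part KBP. -/

set_option autoImplicit false
set_option linter.all false

namespace Pool.Agent.Helper79.RL.KBP

open MvPolynomial Pool.Agent.W275.UB Pool.Agent.W275.ND Pool.Agent Pool.Agent.H927R2.RD
open Pool.Agent.R939.HI Pool.Agent.H936R2 H294UB Pool.Agent.W131.ND.Lmk
open Pool.Agent.Helper55.TT Pool.Agent.R939.EI NumberField
open Pool.Agent.Helper55.RG (S_SYK)
open Pool.Agent.Helper55.RL (P_TNP P_KBP PwMod)
open Pool.Agent.Helper79.RL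
open Pool.Agent.Helper71.RG.Sys

theorem main (hS : S_SYK) (hT : P_TNP) : P_KBP := by
  classical
  intro p hpf k k₁ _ _ _ _ _ J _ ω u n l0 hn S hSm hSs hS1
  have hp0 : p ≠ 0 := hpf.out.ne_zero
  have hn1 : 1 ≤ n l0 := by omega
  obtain ⟨j0⟩ := exJ ω
  set ω₁ := RingOfIntegers.basis k₁ with hω₁
  have hinj : Function.Injective (fun j => (⟨l0, j⟩ : Σ l : Fin u, Fin (n l + 1))) := by
    intro j j' h
    exact eq_of_heq (Sigma.mk.inj_iff.1 h).2
  set v : J → 𝓞 k₁ := fun j => algebraMap (𝓞 k) (𝓞 k₁) (ω j) with hv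
  have hvinj : Function.Injective (algebraMap (𝓞 k) (𝓞 k₁)) :=
    FaithfulSMul.algebraMap_injective _ _
  have hv0 : v j0 ≠ 0 := by
    rw [hv]
    simp only
    rw [Ne, map_eq_zero_iff _ hvinj]
    exact ω.ne_zero j0
  set e : Fin (n l0 + 1) → (Σ l : Fin u, Fin (n l + 1)) := fun j => ⟨l0, j⟩ with he
  obtain ⟨hPd, A, B, Δ, hΔ, hAB⟩ := PG_spec v hv0 hn1 e hinj
  obtain ⟨d, hd, hd'⟩ := IsLocalization.integerNormalization_spec (nonZeroDivisors (𝓞 k₁)) S
  obtain ⟨Q, hQ⟩ : ∃ Q, Q = IsLocalization.integerNormalization (nonZeroDivisors (𝓞 k₁)) S :=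
    ⟨_, rfl⟩
  have hd0 : d ≠ 0 := nonZeroDivisors.ne_zero hd
  have hda : algebraMap (𝓞 k₁) k₁ d ≠ 0 := by
    rw [Ne, map_eq_zero_iff _ (FaithfulSMul.algebraMap_injective (𝓞 k₁) k₁)]
    exact hd0
  have hQS : Q.map (algebraMap (𝓞 k₁) k₁) = Polynomial.C (algebraMap (𝓞 k₁) k₁ d) * S := by
    rw [hQ, hd']
    ext i
    rw [Polynomial.coeff_smul, Polynomial.coeff_C_mul, Algebra.smul_def]
  obtain ⟨M, _, φ, Θ, t, hΘ, hΘφ, ht, hroot, -, -, hns⟩ := hT p k₁ (𝓞 k₁)
    (Σ l : Fin u, Fin (n l + 1)) J v j0 hv0 (n l0) e hn1 hinj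
  have hP0 : ∀ l, ((PG v e).map Θ).eval (t l) = 0 := fun l => eval_PG v e Θ (t l) (hroot l)
  obtain ⟨N, hN⟩ : ∃ N, p * n l0 + S.natDegree < N := ⟨_, Nat.lt_succ_self _⟩
  have hQe : ∀ l, ((Q.map C).map Θ).eval (t l) =
      φ (algebraMap (𝓞 k₁) k₁ d) * Polynomial.eval₂ φ (t l) S := by
    intro l
    have h1 : (Q.map C).map Θ = (Q.map (algebraMap (𝓞 k₁) k₁)).map φ := by
      rw [Polynomial.map_map, Polynomial.map_map]
      congr 1
      ext o
      exact hΘφ o
    rw [h1, hQS, Polynomial.map_mul, Polynomial.map_C, Polynomial.eval_mul, Polynomial.eval_C,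
      Polynomial.eval_map]
  have key : ∀ i : Fin (n l0), _ := fun i => sysWp hp0 hS ω₁ (PG v e) (Q.map C) A B Δ hΔ hAB N i hPd
    Θ hΘ (by
      intro w h c hw hi heq
      have hval : ∀ l, (w.eval (t l)) ^ p =
          c * (φ (algebraMap (𝓞 k₁) k₁ d) * Polynomial.eval₂ φ (t l) S) := by
        intro l
        have h1 := congrArg (Polynomial.eval (t l)) heq
        rw [Polynomial.eval_sub, Polynomial.eval_pow, Polynomial.eval_mul, Polynomial.eval_C,
          Polynomial.eval_mul, hP0, zero_mul, hQe] at h1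
        exact sub_eq_zero.1 h1
      have hc : c ≠ 0 := by
        intro h0
        have h1 : w = 0 := by
          refine zero_of_roots ht hw fun l => ?_
          have h2 := hval l
          rw [h0, zero_mul] at h2
          exact pow_eq_zero_iff hp0 |>.1 h2
        rw [h1, Polynomial.coeff_zero] at hi
        exact zero_ne_one hi
      have hφd : φ (algebraMap (𝓞 k₁) k₁ d) ≠ 0 := (_root_.map_ne_zero φ).2 hda
      have hne : (⟨0, by omega⟩ : Fin (n l0)) ≠ ⟨1, by omega⟩ := by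
        intro h
        have := Fin.mk.inj_iff.1 h
        omega
      refine hns S hSm hSs hS1 ⟨0, by omega⟩ ⟨1, by omega⟩ hne
        ⟨w.eval (t ⟨0, by omega⟩) * w.eval (t ⟨1, by omega⟩) ^ (p - 1) *
          (c * φ (algebraMap (𝓞 k₁) k₁ d))⁻¹, ?_⟩
      have h1 := hval ⟨0, by omega⟩
      have h2 := hval ⟨1, by omega⟩
      set w0 := w.eval (t ⟨0, by omega⟩)
      set w1 := w.eval (t ⟨1, by omega⟩)
      set s0 := Polynomial.eval₂ φ (t ⟨0, by omega⟩) S
      set s1 := Polynomial.eval₂ φ (t ⟨1, by omega⟩) S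
      set D := φ (algebraMap (𝓞 k₁) k₁ d)
      have hcD : c * D ≠ 0 := mul_ne_zero hc hφd
      have hpp : (c * D) ^ p = (c * D) * (c * D) ^ (p - 1) := by
        rw [← pow_succ', Nat.sub_add_cancel hpf.out.one_le]
      have h3 : (w0 * w1 ^ (p - 1) * (c * D)⁻¹) ^ p =
          (w0 ^ p * (w1 ^ p) ^ (p - 1)) * ((c * D) ^ p)⁻¹ := by
        rw [mul_pow, mul_pow, inv_pow, ← pow_mul, ← pow_mul, mul_comm (p - 1) p]
      have h4 : ((c * D) ^ p) ≠ 0 := pow_ne_zero _ hcD
      rw [h3, h1, h2, mul_inv_eq_iff_eq_mul₀ h4, hpp]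
      rw [show c * (D * s0) = (c * D) * s0 by ring, show c * (D * s1) = (c * D) * s1 by ring,
        mul_pow]
      ring)
  have h1 := D0.biUnion (Finset.univ : Finset (Fin (n l0))) _ fun i _ => key i
  have h2 := dens_top (n := n) ω l0
  intro ε hε
  refine ((h1.union h2) ε hε).mono ?_
  rintro x ⟨hirr, hnd, c, hc, z, hz⟩
  by_contra hcon
  simp only [Set.mem_union, not_or, Set.mem_iUnion, exists_prop, not_exists, not_and,
    Set.mem_setOf_eq, not_not, Finset.mem_univ, true_and, forall_true_left] at hcon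
  obtain ⟨c1, c2⟩ := hcon
  have hDd : ((Dp ω x l0).map (algebraMap k k₁)).natDegree = n l0 := by
    rw [Polynomial.natDegree_map]
    exact (lead_polA (c := fun j => kv ω x ⟨l0, j⟩) c2).1
  set D := (Dp ω x l0).map (algebraMap k k₁) with hD
  have hw0 : z % D ≠ 0 := by
    intro h0
    have h1 : D ∣ z := EuclideanDomain.mod_eq_zero.1 h0
    have h2 : D ∣ Polynomial.C c * S := by
      have := dvd_sub (dvd_pow h1 hp0) hz
      rwa [sub_sub_cancel] at this
    rw [(Polynomial.isUnit_C.2 (isUnit_iff_ne_zero.2 hc)).dvd_mul_left] at h2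
    exact hnd h2
  have hwd : (z % D).natDegree < n l0 := by
    rw [← hDd]
    exact Polynomial.natDegree_mod_lt z (by omega)
  obtain ⟨w, h, c', hwi, heq⟩ := toSysP hp0 hirr.ne_zero hDd hda hQS hN hz
    (i := ⟨(z % D).natDegree, hwd⟩) (Polynomial.leadingCoeff_ne_zero.2 hw0)
  refine c1 ⟨(z % D).natDegree, hwd⟩ k₁ inferInstance inferInstance
    (algebraMap (𝓞 k₁) k₁) w h c' ?_ hwi ?_
  · rw [card_J ω₁]
  · have h3 : (Q.map C).map (eval₂Hom (algebraMap (𝓞 k₁) k₁) fun q => (x q : k₁)) =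
        Q.map (algebraMap (𝓞 k₁) k₁) := by
      rw [Polynomial.map_map]
      congr 1
      ext o
      simp
    rw [h3]
    have h4 := PG_kv (k₁ := k₁) ω l0 x
    rw [← hD] at h4
    rw [hv, he, h4]
    exact heq

end Pool.Agent.Helper79.RL.KBP
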