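import Pool.Agent.Helper79.RL.SysP

/-! RL, part KCP. -/

set_option autoImplicit false
set_option linter.all false

namespace Pool.Agent.Helper79.RL.KCP

open MvPolynomial Pool.Agent.W275.UB Pool.Agent.W275.ND Pool.Agent Pool.Agent.H927R2.RD
open Pool.Agent.R939.HI Pool.Agent.H936R2 H294UB Pool.Agent.W131.ND.Lmk
open Pool.Agent.Helper55.TT Pool.Agent.R939.EI NumberField
open Pool.Agent.Helper55.RG (S_SYK)
open Pool.Agent.Helper55.RL (P_TNP P_KCP PwMod)
open Pool.Agent.Helper79.RL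
open Pool.Agent.Helper71.RG.Sys

/-- the generic nonexistence -/
theorem gen_no {p : ℕ} (hp0 : p ≠ 0) {M : Type} [Field M] {m : ℕ} (hm : 3 ≤ m) {t : Fin m → M}
    (ht : Function.Injective t) (F : Subfield M)
    (hσ : ∀ q : Equiv.Perm (Fin m), ∃ σ : M ≃+* M, (∀ x ∈ F, σ x = x) ∧ ∀ l, σ (t l) = t (q l))
    (hμ : ∀ ε : M, ε ^ p = 1 → ε ∈ F)
    {w : Polynomial F} (hw : w.degree < m) {i : ℕ} (hi0 : 1 ≤ i) (hi : w.coeff i = 1) (c : M)
    (h : ∀ l, ((w.map F.subtype).eval (t l)) ^ p = c) : False := by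
  classical
  set W := w.map F.subtype with hW
  have hWd : W.degree < m := by
    rw [hW, Polynomial.degree_map]
    exact hw
  have hWi : W.coeff i = 1 := by
    rw [hW, Polynomial.coeff_map, hi, map_one]
  have hfix : ∀ (σ : M ≃+* M), (∀ x ∈ F, σ x = x) → ∀ y, σ (W.eval y) = W.eval (σ y) := by
    intro σ hσ y
    have h2 : W.map (σ : M →+* M) = W := by
      rw [hW, Polynomial.map_map]
      congr 1
      ext x
      exact hσ _ x.2
    have h3 : (W.map (σ : M →+* M)).eval ((σ : M →+* M) y) = (σ : M →+* M) (W.eval y) :=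
      Polynomial.eval_map_apply (σ : M →+* M) y
    rw [h2] at h3
    exact h3.symm
  have hall : ∀ l l', W.eval (t l) = W.eval (t l') := by
    intro l l'
    by_cases hll : l = l'
    · rw [hll]
    obtain ⟨l2, h2, h2'⟩ : ∃ l2, l2 ≠ l ∧ l2 ≠ l' := by
      have : ({l, l'} : Finset (Fin m)) ≠ Finset.univ := by
        intro h0
        have h1 := congrArg Finset.card h0
        rw [Finset.card_univ, Fintype.card_fin, Finset.card_pair hll] at h1
        omega
      obtain ⟨l2, hl2⟩ : ∃ l2, l2 ∉ ({l, l'} : Finset (Fin m)) := by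
        by_contra hcon
        push Not at hcon
        exact this (Finset.eq_univ_iff_forall.2 hcon)
      rw [Finset.mem_insert, Finset.mem_singleton, not_or] at hl2
      exact ⟨l2, hl2.1, hl2.2⟩
    obtain ⟨σ, hσF, hσt⟩ := hσ (Equiv.swap l l')
    have e1 : σ (W.eval (t l2)) = W.eval (t l2) := by
      rw [hfix σ hσF, hσt, Equiv.swap_apply_of_ne_of_ne h2 h2']
    have e2 : σ (W.eval (t l)) = W.eval (t l') := by
      rw [hfix σ hσF, hσt, Equiv.swap_apply_left]
    have e3 : (W.eval (t l)) ^ p = (W.eval (t l2)) ^ p := by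
      rw [h, h]
    have e4 : (W.eval (t l')) ^ p = (W.eval (t l2)) ^ p := by
      rw [h, h]
    by_cases h4 : W.eval (t l2) = 0
    · rw [h4, zero_pow hp0] at e3 e4
      rw [pow_eq_zero_iff hp0] at e3 e4
      rw [e3, e4]
    · have h5 : (W.eval (t l) / W.eval (t l2)) ^ p = 1 := by
        rw [div_pow, e3, div_self (pow_ne_zero p h4)]
      have h6 := hσF _ (hμ _ h5)
      rw [map_div₀, e1, e2] at h6
      exact ((div_left_inj' h4).1 h6).symm
  set l0 : Fin m := ⟨0, by omega⟩ with hl0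
  have h0 : W - Polynomial.C (W.eval (t l0)) = 0 := by
    refine zero_of_roots ht ?_ fun l => ?_
    · refine lt_of_le_of_lt (Polynomial.degree_sub_le _ _) (max_lt hWd ?_)
      refine lt_of_le_of_lt Polynomial.degree_C_le ?_
      exact_mod_cast (by omega : 0 < m)
    · rw [Polynomial.eval_sub, Polynomial.eval_C, hall l l0, sub_self]
  have h1 := congrArg (fun f => Polynomial.coeff f i) h0
  simp only [Polynomial.coeff_sub, Polynomial.coeff_zero] at h1
  rw [Polynomial.coeff_C, if_neg (by omega), sub_zero, hWi] at h1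
  exact one_ne_zero h1

theorem main (hS : S_SYK) (hT : P_TNP) : P_KCP := by
  classical
  intro p hpf k k₁ _ _ _ _ _ J _ ω u n l0 hn
  have hp0 : p ≠ 0 := hpf.out.ne_zero
  have hn1 : 1 ≤ n l0 := by omega
  obtain ⟨j0⟩ := exJ ω
  set ω₁ := RingOfIntegers.basis k₁ with hω₁
  have hinj : Function.Injective (fun j => (⟨l0, j⟩ : Σ l : Fin u, Fin (n l + 1))) := by
    intro j j' h
    exact eq_of_heq (Sigma.mk.inj_iff.1 h).2
  set v : J → 𝓞 k₁ := fun j => algebraMap (𝓞 k) (𝓞 k₁) (ω j) with hv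
  have hvinj : Function.Injective (algebraMap (𝓞 k) (𝓞 k₁)) :=
    FaithfulSMul.algebraMap_injective _ _
  have hv0 : v j0 ≠ 0 := by
    rw [hv]
    simp only
    rw [Ne, map_eq_zero_iff _ hvinj]
    exact ω.ne_zero j0
  set e : Fin (n l0 + 1) → (Σ l : Fin u, Fin (n l + 1)) := fun j => ⟨l0, j⟩ with he
  obtain ⟨hPd, A, B, Δ, hΔ, hAB⟩ := PG_spec v hv0 hn1 e hinj
  obtain ⟨M, _, φ, Θ, t, hΘ, hΘφ, ht, hroot, hσ, hμ, -⟩ := hT p k₁ (𝓞 k₁)
    (Σ l : Fin u, Fin (n l + 1)) J v j0 hv0 (n l0) e hn1 hinj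
  have hP0 : ∀ l, ((PG v e).map Θ).eval (t l) = 0 := fun l => eval_PG v e Θ (t l) (hroot l)
  obtain ⟨F, hF⟩ : ∃ F : Subfield M, F = Subfield.closure (Set.range Θ) := ⟨_, rfl⟩
  have hΘF : ∀ x, Θ x ∈ F := fun x => by
    rw [hF]
    exact Subfield.subset_closure ⟨x, rfl⟩
  let Θ' : MvPolynomial ((Σ l : Fin u, Fin (n l + 1)) × J) (𝓞 k₁) →+* F :=
    Θ.codRestrict F hΘF
  have hΘ' : Function.Injective Θ' := by
    intro x y hxy
    exact hΘ (congrArg Subtype.val hxy)
  have hcomp : F.subtype.comp Θ' = Θ := by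
    ext x <;> rfl
  have hφF : ∀ a : k₁, φ a ∈ F := by
    intro a
    obtain ⟨b, d, -, rfl⟩ := IsFractionRing.div_surjective (A := 𝓞 k₁) a
    rw [map_div₀, ← hΘφ, ← hΘφ]
    exact F.div_mem (hΘF _) (hΘF _)
  have hμ' : ∀ ε : M, ε ^ p = 1 → ε ∈ F := by
    intro ε hε
    obtain ⟨a, rfl⟩ := hμ ε hε
    exact hφF a
  have hσ' : ∀ q : Equiv.Perm (Fin (n l0)), ∃ σ : M ≃+* M, (∀ x ∈ F, σ x = x) ∧
      ∀ l, σ (t l) = t (q l) := by
    intro q
    obtain ⟨σ, h1, h2⟩ := hσ q
    refine ⟨σ, fun x hx => ?_, h2⟩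
    rw [hF] at hx
    have h3 : Set.EqOn (σ : M →+* M) (RingHom.id M) (Set.range Θ) := by
      rintro _ ⟨y, rfl⟩
      exact h1 y
    exact RingHom.eqOn_field_closure h3 hx
  obtain ⟨N, hN⟩ : ∃ N, p * n l0 + (1 : Polynomial k₁).natDegree < N := ⟨_, Nat.lt_succ_self _⟩
  have key : ∀ i ∈ (Finset.univ.filter fun i : Fin (n l0) => 1 ≤ (i : ℕ)), _ :=
    fun i hi => sysWp hp0 hS ω₁ (PG v e) 1 A B Δ hΔ hAB N i hPd
    Θ' hΘ' (by
      intro w h c hw hwi heq
      refine gen_no hp0 hn ht F hσ' hμ' hw (Finset.mem_filter.1 hi).2 hwi (c : M) fun l => ?_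
      have h1 := congrArg (fun f => Polynomial.eval (t l) (Polynomial.map F.subtype f)) heq
      simp only [Polynomial.map_sub, Polynomial.map_mul, Polynomial.map_pow, Polynomial.map_one,
        Polynomial.map_C, Polynomial.map_map, hcomp, Polynomial.eval_sub, Polynomial.eval_mul,
        Polynomial.eval_pow, Polynomial.eval_C, Polynomial.eval_one, hP0, zero_mul,
        mul_one] at h1
      exact sub_eq_zero.1 h1)
  have h1 := D0.biUnion _ _ key
  have h2 := dens_top (n := n) ω l0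
  intro ε hε
  refine ((h1.union h2) ε hε).mono ?_
  rintro x ⟨hirr, c, hc, z, hz⟩
  by_contra hcon
  simp only [Set.mem_union, not_or, Set.mem_iUnion, exists_prop, not_exists, not_and,
    Set.mem_setOf_eq, not_not, Finset.mem_univ, true_and, forall_true_left,
    Finset.mem_filter] at hcon
  obtain ⟨c1, c2⟩ := hcon
  have hDd : ((Dp ω x l0).map (algebraMap k k₁)).natDegree = n l0 := by
    rw [Polynomial.natDegree_map]
    exact (lead_polA (c := fun j => kv ω x ⟨l0, j⟩) c2).1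
  set D := (Dp ω x l0).map (algebraMap k k₁) with hD
  have hwd : (z % D).natDegree < n l0 := by
    rw [← hDd]
    exact Polynomial.natDegree_mod_lt z (by omega)
  have hwn : 1 ≤ (z % D).natDegree := by
    by_contra h0
    obtain ⟨a, ha⟩ := Polynomial.natDegree_eq_zero.1 (by omega : (z % D).natDegree = 0)
    apply hc
    have hz' : D ∣ Polynomial.C (a ^ p - c) := by
      have e1 : Polynomial.C (a ^ p - c) =
          (z ^ p - Polynomial.C c) - (z ^ p - (z % D) ^ p) := by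
        rw [← ha, Polynomial.C_sub, Polynomial.C_pow]
        ring
      rw [e1]
      exact dvd_sub hz (dvd_pow_mod p z D)
    have h3 : a ^ p - c = 0 := by
      by_contra h4
      have h5 := Polynomial.natDegree_le_of_dvd hz' (Polynomial.C_ne_zero.2 h4)
      rw [Polynomial.natDegree_C] at h5
      omega
    exact ⟨a, by linear_combination h3⟩
  have hw0 : z % D ≠ 0 := by
    intro h0
    rw [h0, Polynomial.natDegree_zero] at hwn
    omega
  obtain ⟨w, h, c', hwi, heq⟩ := toSysP hp0 (S := 1) (Q := 1) (d := 1) (c := c) hirr.ne_zero hDd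
    one_ne_zero (by simp) hN (by rw [mul_one]; exact hz)
    (i := ⟨(z % D).natDegree, hwd⟩) (Polynomial.leadingCoeff_ne_zero.2 hw0)
  refine c1 ⟨(z % D).natDegree, hwd⟩ hwn k₁ inferInstance inferInstance
    (algebraMap (𝓞 k₁) k₁) w h c' ?_ hwi ?_
  · rw [card_J ω₁]
  · rw [Polynomial.map_one] at heq ⊢
    have h4 := PG_kv (k₁ := k₁) ω l0 x
    rw [← hD] at h4
    rw [hv, he, h4]
    exact heq

end Pool.Agent.Helper79.RL.KCP
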