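import Pool.Agent.Helper55.RL.Spec
import Pool.Agent.Helper71.RG.Sys2

/-! RL, parts KBP and KCP: the systems for `p`-th powers. -/

set_option autoImplicit false
set_option linter.all false

namespace Pool.Agent.Helper79.RL

open MvPolynomial Pool.Agent.W275.UB Pool.Agent.W275.ND Pool.Agent Pool.Agent.H927R2.RD
open Pool.Agent.R939.HI Pool.Agent.H936R2 H294UB Pool.Agent.W131.ND.Lmk
open Pool.Agent.Helper55.TT Pool.Agent.R939.EI NumberField
open Pool.Agent.Helper55.RG (S_SYK S_THN)
open Pool.Agent.Helper71.RG.SYK (phi_inj ord_alg)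
open Pool.Agent.Helper71.RG.Sys

section alg

variable {E Ω : Type} [Field E] [Field Ω] [Algebra E Ω]

theorem isAlg_pow {w : Polynomial Ω} (hw : ∀ n, IsAlgebraic E (w.coeff n)) (p : ℕ) (n : ℕ) :
    IsAlgebraic E ((w ^ p).coeff n) := by
  classical
  induction p generalizing n with
  | zero =>
    rw [pow_zero, Polynomial.coeff_one]
    split_ifs
    · exact isAlgebraic_one
    · exact isAlgebraic_zero
  | succ p ih =>
    rw [pow_succ, Polynomial.coeff_mul]
    refine Finset.sum_induction _ (IsAlgebraic E) (fun _ _ => IsAlgebraic.add)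
      isAlgebraic_zero ?_
    intro x _
    exact (ih _).mul (hw _)

/-- the solutions of `w² - c Q = P h` with `w` normalised are algebraic -/
theorem isAlg_sysP {p : ℕ} (hp : p ≠ 0) [IsAlgClosed Ω] {P Q w h : Polynomial Ω} {c : Ω} {i : ℕ}
    (hP : ∀ n, IsAlgebraic E (P.coeff n)) (hQ : ∀ n, IsAlgebraic E (Q.coeff n))
    (hsep : P.Separable) (hw : w.natDegree < P.natDegree) (hi : w.coeff i = 1)
    (e : w ^ p - Polynomial.C c * Q = P * h) :
    IsAlgebraic E c ∧ (∀ n, IsAlgebraic E (w.coeff n)) ∧ ∀ n, IsAlgebraic E (h.coeff n) := by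
  classical
  have hP0 : P ≠ 0 := hsep.ne_zero
  have hw0 : w ≠ 0 := by
    rintro rfl
    rw [Polynomial.coeff_zero] at hi
    exact zero_ne_one hi
  have hc : c ≠ 0 := by
    rintro rfl
    rw [Polynomial.C_0, zero_mul, sub_zero] at e
    have h1 : P ∣ w ^ p := ⟨h, e⟩
    have h2 : P ∣ w := (hsep.squarefree.dvd_pow_iff_dvd hp).1 h1
    have h3 := Polynomial.natDegree_le_of_dvd h2 hw0
    omega
  obtain ⟨γ, hγ⟩ := IsAlgClosed.exists_pow_nat_eq c (n := p) (Nat.pos_of_ne_zero hp)
  have hγ0 : γ ≠ 0 := by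
    rintro rfl
    exact hc (by rw [← hγ, zero_pow hp])
  set T := P.roots.toFinset with hT
  have hTc : T.card = P.natDegree := by
    rw [hT, Multiset.toFinset_card_of_nodup (Polynomial.nodup_roots hsep)]
    exact Polynomial.splits_iff_card_roots.1 (IsAlgClosed.splits P)
  have hTr : ∀ θ ∈ T, P.eval θ = 0 := fun θ hθ =>
    (Polynomial.mem_roots'.1 (Multiset.mem_toFinset.1 hθ)).2
  have hTa : ∀ θ ∈ T, IsAlgebraic E θ := fun θ hθ => isAlg_root hP0 hP (hTr θ hθ)
  set w' := Polynomial.C γ⁻¹ * w with hw'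
  have hw'd : w'.degree < T.card := by
    rw [hTc]
    refine lt_of_le_of_lt ?_ (Polynomial.degree_lt_degree (p := w) (q := P) hw |>.trans_le
      Polynomial.degree_le_natDegree)
    rw [hw', Polynomial.degree_C_mul (inv_ne_zero hγ0)]
  have hval : ∀ θ ∈ T, IsAlgebraic E (w'.eval θ) := by
    intro θ hθ
    have h1 := congrArg (Polynomial.eval θ) e
    rw [Polynomial.eval_sub, Polynomial.eval_pow, Polynomial.eval_mul, Polynomial.eval_C,
      Polynomial.eval_mul, hTr θ hθ, zero_mul] at h1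
    have h2 : (w'.eval θ) ^ p = Q.eval θ := by
      rw [hw', Polynomial.eval_mul, Polynomial.eval_C, mul_pow, sub_eq_zero.1 h1, ← hγ, inv_pow,
        inv_mul_cancel_left₀ (pow_ne_zero p hγ0)]
    have h3 : IsAlgebraic E ((w'.eval θ) ^ p) := by
      rw [h2]
      exact isAlg_eval hQ (hTa θ hθ)
    exact h3.of_pow (Nat.pos_of_ne_zero hp)
  have hw'a := isAlg_interp hTa hval hw'd
  have hγa : IsAlgebraic E γ := by
    have h1 := hw'a i
    rw [hw', Polynomial.coeff_C_mul, hi, mul_one] at h1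
    have h2 := h1.inv
    rwa [inv_inv] at h2
  have hca : IsAlgebraic E c := by
    rw [← hγ]
    exact hγa.pow p
  have hwa : ∀ n, IsAlgebraic E (w.coeff n) := by
    intro n
    have h1 : w.coeff n = γ * w'.coeff n := by
      rw [hw', Polynomial.coeff_C_mul, ← mul_assoc, mul_inv_cancel₀ hγ0, one_mul]
    rw [h1]
    exact hγa.mul (hw'a n)
  refine ⟨hca, hwa, ?_⟩
  by_cases hf : w ^ p - Polynomial.C c * Q = 0
  · rw [hf] at e
    have h1 : h = 0 := by
      rcases mul_eq_zero.1 e.symm with h | h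
      · exact absurd h hP0
      · exact h
    intro n
    rw [h1, Polynomial.coeff_zero]
    exact isAlgebraic_zero
  · have hfa : ∀ n, IsAlgebraic E ((w ^ p - Polynomial.C c * Q).coeff n) := by
      intro n
      rw [Polynomial.coeff_sub, Polynomial.coeff_C_mul]
      exact IsAlgebraic.sub (isAlg_pow hwa p n) (hca.mul (hQ n))
    have hl0 : P.leadingCoeff ≠ 0 := Polynomial.leadingCoeff_ne_zero.2 hP0
    have hmon : (Polynomial.C P.leadingCoeff⁻¹ * P).Monic := by
      rw [Polynomial.Monic, Polynomial.leadingCoeff_mul, Polynomial.leadingCoeff_C,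
        inv_mul_cancel₀ hl0]
    have h3 := (isAlg_factor (E := E) hf hfa hmon (h := Polynomial.C P.leadingCoeff * h) (by
      rw [e]
      have : (Polynomial.C P.leadingCoeff⁻¹ : Polynomial Ω) * Polynomial.C P.leadingCoeff = 1 := by
        rw [← Polynomial.C_mul, inv_mul_cancel₀ hl0, Polynomial.C_1]
      linear_combination (P * h) * this)).2
    intro n
    have h4 : h.coeff n = P.leadingCoeff⁻¹ * (Polynomial.C P.leadingCoeff * h).coeff n := by
      rw [Polynomial.coeff_C_mul, ← mul_assoc, inv_mul_cancel₀ hl0, one_mul]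
    rw [h4]
    exact (hP P.natDegree).inv.mul (h3 n)

end alg

/-- the system `w² - c Q = P h`, `w i = 1` -/
noncomputable def sSp (p : ℕ) {R : Type} [CommRing R] {q : ℕ} (n : ℕ) (i : Fin q) (P Q : Polynomial R) :
    Set (MvPolynomial (Un' q n) R) :=
  (Set.range fun l : ℕ => ((pl fun j : Fin q => X (Sum.inl j)) ^ p -
      Polynomial.C (X (Sum.inr (Sum.inr ()))) * Q.map C -
    P.map C * pl fun j : Fin n => X (Sum.inr (Sum.inl j))).coeff l) ∪
  {X (Sum.inl i) - 1}

theorem eval_sSp (p : ℕ) {R R' : Type} [CommRing R] [CommRing R'] {q n : ℕ} (i : Fin q)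
    (P Q : Polynomial R) (φ : R →+* R') (y : Un' q n → R') :
    (∀ g ∈ sSp p n i P Q, eval₂ φ y g = 0) ↔
      ((pl fun j : Fin q => y (Sum.inl j)) ^ p -
      Polynomial.C (y (Sum.inr (Sum.inr ()))) * Q.map φ =
      P.map φ * (pl fun j : Fin n => y (Sum.inr (Sum.inl j)))) ∧
      y (Sum.inl i) = 1 := by
  have hφ : (eval₂Hom φ y).comp C = φ := by
    ext r
    simp
  have key : ∀ l, eval₂ φ y (((pl fun j : Fin q => (X (Sum.inl j) :
      MvPolynomial (Un' q n) R)) ^ p -
      Polynomial.C (X (Sum.inr (Sum.inr ()))) * Q.map C -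
    P.map C * pl fun j : Fin n => X (Sum.inr (Sum.inl j))).coeff l) =
      (((pl fun j : Fin q => y (Sum.inl j)) ^ p -
      Polynomial.C (y (Sum.inr (Sum.inr ()))) * Q.map φ) -
      P.map φ * (pl fun j : Fin n => y (Sum.inr (Sum.inl j)))).coeff l := by
    intro l
    rw [← coe_eval₂Hom, ← Polynomial.coeff_map]
    simp only [Polynomial.map_sub, Polynomial.map_mul, Polynomial.map_pow, pl_map,
      Polynomial.map_map, hφ, Polynomial.map_C]
    simp
  constructor
  · intro h
    constructor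
    · rw [← sub_eq_zero]
      ext l
      rw [← key, Polynomial.coeff_zero]
      exact h _ (Or.inl ⟨l, rfl⟩)
    · have h1 := h _ (Or.inr rfl)
      rw [eval₂_sub, eval₂_X, eval₂_one] at h1
      exact sub_eq_zero.1 h1
  · rintro ⟨h1, h2⟩ g (⟨l, rfl⟩ | rfl)
    · have h3 := key l
      rw [h1, sub_self, Polynomial.coeff_zero] at h3
      exact h3
    · rw [eval₂_sub, eval₂_X, eval₂_one, h2, sub_self]

/-- **Constants times a polynomial which are squares modulo the generic polynomial.** -/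
theorem sysWp {p : ℕ} (hp : p ≠ 0) (hS : S_SYK) {O J κ : Type} [CommRing O] [IsDomain O] [Fintype J] [Fintype κ]
    (ω : Module.Basis J ℤ O) (P Q A B : Polynomial (MvPolynomial κ O)) (Δ : MvPolynomial κ O)
    (hΔ : Δ ≠ 0) (hPs : A * P + B * Polynomial.derivative P = Polynomial.C Δ)
    {q : ℕ} (n : ℕ) (i : Fin q) (hPd : P.natDegree = q)
    {F : Type} [Field F] (Θ : MvPolynomial κ O →+* F) (hΘ : Function.Injective Θ)
    (hno : ∀ (w h : Polynomial F) (c : F), w.degree < q → w.coeff i = 1 →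
      w ^ p - Polynomial.C c * Q.map Θ ≠ P.map Θ * h) :
    D0 {x : κ → ℤ | ∃ (K : Type) (_ : Field K) (_ : NumberField K) (σ : O →+* K)
      (w : Fin q → K) (h : Fin n → K) (c : K),
      Module.finrank ℚ K ≤ Fintype.card J ∧ w i = 1 ∧
      (pl w) ^ p - Polynomial.C c * Q.map (eval₂Hom σ fun q => (x q : K)) =
        P.map (eval₂Hom σ fun q => (x q : K)) * pl h} := by
  classical
  have key := sysO hS ω (sSp p n i P Q) (by
    intro Ω _ _ _ σ y hy
    obtain ⟨h1, hi1⟩ := (eval_sSp p i P Q _ y).1 hy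
    set Φ : MvPolynomial κ O →+* Ω := eval₂Hom σ fun q => gn κ Ω (X q) with hΦ
    have hinj : Function.Injective Φ := phi_inj ω σ
    have hne : ∀ c : MvPolynomial κ O, c ≠ 0 → Φ c ≠ 0 := fun c hc =>
      (map_ne_zero_iff Φ hinj).2 hc
    have hΦa : ∀ c : MvPolynomial κ O, IsAlgebraic (EE κ) (Φ c) := by
      intro c
      rw [hΦ, coe_eval₂Hom, eval₂_eq]
      refine Finset.sum_induction _ (IsAlgebraic (EE κ)) (fun _ _ => IsAlgebraic.add)
        isAlgebraic_zero ?_
      intro m _
      refine (ord_alg ω σ _).mul ?_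
      refine Finset.prod_induction _ (IsAlgebraic (EE κ)) (fun _ _ => IsAlgebraic.mul)
        isAlgebraic_one ?_
      intro q _
      exact (isAlgebraic_algebraMap _).pow _
    have hPa : ∀ n, IsAlgebraic (EE κ) ((P.map Φ).coeff n) := by
      intro n
      rw [Polynomial.coeff_map]
      exact hΦa _
    have hQa : ∀ n, IsAlgebraic (EE κ) ((Q.map Φ).coeff n) := by
      intro n
      rw [Polynomial.coeff_map]
      exact hΦa _
    have hsep : (P.map Φ).Separable := by
      have h2 := congrArg (fun f => Polynomial.C ((Φ Δ)⁻¹) * Polynomial.map Φ f) hPs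
      simp only [Polynomial.map_add, Polynomial.map_mul, Polynomial.map_C] at h2
      rw [← Polynomial.C_mul, inv_mul_cancel₀ (hne Δ hΔ), Polynomial.C_1,
        ← Polynomial.derivative_map] at h2
      refine ⟨Polynomial.C ((Φ Δ)⁻¹) * A.map Φ, Polynomial.C ((Φ Δ)⁻¹) * B.map Φ, ?_⟩
      rw [← h2]
      ring
    have hPv : (P.map Φ).natDegree = q := by
      rw [Polynomial.natDegree_map_eq_of_injective hinj, hPd]
    have hwd : (pl fun j : Fin q => y (Sum.inl j)).natDegree < (P.map Φ).natDegree := by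
      rw [hPv]
      have h2 := pl_deg fun j : Fin q => y (Sum.inl j)
      by_cases h0 : (pl fun j : Fin q => y (Sum.inl j)) = 0
      · rw [h0, Polynomial.natDegree_zero]
        have := i.2
        omega
      · exact (Polynomial.natDegree_lt_iff_degree_lt h0).2 h2
    have hwi : (pl fun j : Fin q => y (Sum.inl j)).coeff (i : ℕ) = 1 := by
      rw [pl_coeff, dif_pos i.2]
      exact hi1
    obtain ⟨hca, hwa, hha⟩ := isAlg_sysP hp (E := EE κ) hPa hQa hsep hwd hwi h1
    intro t
    rcases t with j | j | j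
    · have h5 := hwa j
      rw [pl_coeff, dif_pos j.2] at h5
      exact h5
    · have h5 := hha j
      rw [pl_coeff, dif_pos j.2] at h5
      exact h5
    · exact hca) Θ hΘ (by
    intro y hy
    obtain ⟨h1, hi1⟩ := (eval_sSp p i P Q _ y).1 hy
    refine hno _ _ _ (pl_deg fun j : Fin q => y (Sum.inl j)) ?_ h1
    rw [pl_coeff, dif_pos i.2]
    exact hi1)
  intro ε hε
  refine (key ε hε).mono ?_
  rintro x ⟨K, _, _, σ, w, h, c, hK, hwi, e⟩
  refine ⟨K, inferInstance, inferInstance, σ, Sum.elim w (Sum.elim h fun _ => c), hK, ?_⟩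
  rw [eval_sSp]
  exact ⟨e, hwi⟩



theorem dvd_pow_mod {k₁ : Type} [Field k₁] (p : ℕ) (z D : Polynomial k₁) :
    D ∣ z ^ p - (z % D) ^ p := by
  have e2 := EuclideanDomain.div_add_mod z D
  have e3 : z - z % D = D * (z / D) := by
    linear_combination -e2
  exact (Dvd.intro _ e3.symm).trans (sub_dvd_pow_sub_pow _ _ _)

/-- normalised solutions of the system -/
theorem toSysP {p : ℕ} (hp : p ≠ 0) {k₁ : Type} [Field k₁] [NumberField k₁] {D z S : Polynomial k₁} {Q : Polynomial (𝓞 k₁)} {m N : ℕ} (hD : D ≠ 0)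
    (hDm : D.natDegree = m) {d c : k₁} (hd : d ≠ 0)
    (hQ : Q.map (algebraMap (𝓞 k₁) k₁) = Polynomial.C d * S)
    (hN : p * m + S.natDegree < N) (hz : D ∣ z ^ p - Polynomial.C c * S) {i : Fin m}
    (hi : (z % D).coeff i ≠ 0) :
    ∃ (w : Fin m → k₁) (h : Fin N → k₁) (c' : k₁), w i = 1 ∧
      (pl w) ^ p - Polynomial.C c' * Q.map (algebraMap (𝓞 k₁) k₁) = D * pl h := by
  obtain ⟨a, ha⟩ : ∃ a, a = (z % D).coeff i := ⟨_, rfl⟩
  rw [← ha] at hi
  have hz' : D ∣ (z % D) ^ p - Polynomial.C c * S := by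
    have e1 : (z % D) ^ p - Polynomial.C c * S =
        (z ^ p - Polynomial.C c * S) - (z ^ p - (z % D) ^ p) := by
      ring
    rw [e1]
    exact dvd_sub hz (dvd_pow_mod p z D)
  obtain ⟨h, hh⟩ := hz'
  have hm : m ≠ 0 := by
    have := i.2
    omega
  have hwd : (z % D).natDegree < m := by
    rw [← hDm]
    exact Polynomial.natDegree_mod_lt z (by omega)
  have hhd : h.natDegree < N := by
    by_cases h0 : h = 0
    · rw [h0, Polynomial.natDegree_zero]
      omega
    have h1 : h.natDegree ≤ (D * h).natDegree := by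
      rw [Polynomial.natDegree_mul hD h0]
      omega
    refine lt_of_le_of_lt h1 ?_
    rw [← hh]
    refine lt_of_le_of_lt (Polynomial.natDegree_sub_le _ _) (max_lt ?_ ?_)
    · rw [Polynomial.natDegree_pow]
      have := Nat.mul_le_mul_left p hwd.le
      omega
    · refine lt_of_le_of_lt (Polynomial.natDegree_C_mul_le _ _) ?_
      omega
  refine ⟨fun j => (Polynomial.C a⁻¹ * (z % D)).coeff j,
    fun j => (Polynomial.C (a⁻¹ ^ p) * h).coeff j, a⁻¹ ^ p * c * d⁻¹, ?_, ?_⟩
  · show (Polynomial.C a⁻¹ * (z % D)).coeff i = 1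
    rw [Polynomial.coeff_C_mul, ← ha, inv_mul_cancel₀ hi]
  · rw [← eq_pl (lt_of_le_of_lt (Polynomial.natDegree_C_mul_le _ _) hwd),
      ← eq_pl (lt_of_le_of_lt (Polynomial.natDegree_C_mul_le _ _) hhd), hQ]
    have h1 : (Polynomial.C (a⁻¹ ^ p * c * d⁻¹) : Polynomial k₁) * (Polynomial.C d * S) =
        Polynomial.C (a⁻¹ ^ p) * (Polynomial.C c * S) := by
      rw [← mul_assoc, ← Polynomial.C_mul, ← mul_assoc, ← Polynomial.C_mul]
      congr 2
      field_simp
    rw [h1, mul_pow, ← Polynomial.C_pow, ← mul_sub, hh]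
    ring


end Pool.Agent.Helper79.RL
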